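import Mathlib
import Pool.Agent.Helper83K9.Cap2.Defs
import Pool.Agent.Helper83K9.Cap2.Disc

/-!
# Gromov's filling area conjecture for the hemisphere with a disc replaced, in every genus

Let the compact oriented Riemannian surface `T` isometrically fill the circle of length `2π`, and
suppose that `T` is the unit round hemisphere in which a closed disc of radius `r < π / 4`
(anywhere in the hemisphere) is replaced by a compact oriented Riemannian surface `S`, of any genus
and with any metric. Then the area of `T` is at least `2π`. In particular this holds if the points
of `T` at distance less than `π / 2 - r` from the boundary form a round collar, for some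
`r < π / 4`.

The proof constructs a Lipschitz map of `S` to the disc: the point `X` of the disc is determined by
the distances `d v` of a point of `S` to the points `v` of the great circle parallel to the boundary
of the disc, by the equation that the integral of
`v (sin (2 (π/2 - d v)) - sin (2 (π/2 - |X v|))) / (cos (2 (π/2 - |X v|)) sin³ |X v|)` over the
great circle vanishes. For `r < π / 4` this map does not increase areas, which is an inequality for
the averages of functions on the circle of directions.
-/

set_option autoImplicit false

namespace Pool.Agent.Results.MP_ecf18f_gt.HemisphereDisc

open Pool.Agent.H115R3.Filling Pool.Agent.Helper83K9.Cap2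

/-- Let `T` be a compact oriented Riemannian surface whose boundary is the circle of length `2π`,
without shortcuts. If `T` is the unit hemisphere in which a disc of radius `r < π / 4` is replaced
by some compact oriented Riemannian surface `S`, then the area of `T` is at least `2π`. -/
theorem result {N M : Type} [MetricSpace N] [MetricSpace M] (T : OrientedSurface N)
    (S : OrientedSurface M) (r : ℝ) (hr0 : 0 < r) (hr : r < Real.pi / 4)
    (hT : T.NoShortcut) (h : DiscReplaced T S r) : 2 * Real.pi ≤ T.area :=
  area_of_replaced T S hr0 hr hT h

end Pool.Agent.Results.MP_ecf18f_gt.HemisphereDisc
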